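import Mathlib
import Pool.Agent.Y499.HC.Stm

set_option autoImplicit false

open Real Set MeasureTheory Metric
open scoped ENNReal Pointwise

namespace Pool.Agent.Y502.HC

open Pool.Agent.Y499.HC

variable {d : ℕ}

/-- The orthogonal group. -/
abbrev O (d : ℕ) : Type := Matrix.orthogonalGroup (Fin (d + 1)) ℝ

noncomputable instance measurableSpaceO (d : ℕ) : MeasurableSpace (O d) := borel _

instance borelSpaceO (d : ℕ) : BorelSpace (O d) := ⟨rfl⟩

instance compactSpaceO (d : ℕ) : CompactSpace (O d) := by
  have hcl : IsClosed ((Matrix.orthogonalGroup (Fin (d + 1)) ℝ :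
      Set (Matrix (Fin (d + 1)) (Fin (d + 1)) ℝ))) := by
    have : (Matrix.orthogonalGroup (Fin (d + 1)) ℝ : Set (Matrix (Fin (d + 1)) (Fin (d + 1)) ℝ)) =
        {A | A * star A = 1} := by
      ext A
      exact Matrix.mem_unitaryGroup_iff
    rw [this]
    exact isClosed_eq (continuous_id.mul continuous_star) continuous_const
  have hsub : (Matrix.orthogonalGroup (Fin (d + 1)) ℝ :
      Set (Matrix (Fin (d + 1)) (Fin (d + 1)) ℝ)) ⊆
      Set.pi Set.univ (fun _ : Fin (d + 1) => Set.pi Set.univ
        (fun _ : Fin (d + 1) => Metric.closedBall (0 : ℝ) 1)) := by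
    intro A hA i _ j _
    rw [mem_closedBall_zero_iff]
    exact entry_norm_bound_of_unitary hA i j
  have hc : IsCompact (Set.pi Set.univ
      (fun _ : Fin (d + 1) => Set.pi Set.univ
        (fun _ : Fin (d + 1) => Metric.closedBall (0 : ℝ) 1))) :=
    isCompact_univ_pi fun _ => isCompact_univ_pi fun _ => isCompact_closedBall _ _
  exact isCompact_iff_compactSpace.mp (hc.of_isClosed_subset hcl hsub)

/-- The Haar probability measure. -/
noncomputable def ν (d : ℕ) : Measure (O d) := Measure.haarMeasure ⊤

instance haarν (d : ℕ) : (ν d).IsHaarMeasure := by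
  unfold ν
  infer_instance

instance probν (d : ℕ) : IsProbabilityMeasure (ν d) := by
  constructor
  have h := Measure.haarMeasure_self (G := O d) (K₀ := ⊤)
  simpa [ν] using h

lemma map_right (A : O d) : (ν d).map (· * A) = ν d := by
  have : IsProbabilityMeasure ((ν d).map (· * A)) :=
    Measure.isProbabilityMeasure_map (measurable_mul_const A).aemeasurable
  exact Measure.isHaarMeasure_eq_of_isProbabilityMeasure _ _

lemma integral_right (A : O d) {f : O d → ℝ} (hf : Continuous f) :
    ∫ g, f (g * A) ∂(ν d) = ∫ g, f g ∂(ν d) := by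
  have h := integral_map (μ := ν d) (φ := (· * A)) (measurable_mul_const A).aemeasurable (f := f)
    hf.aestronglyMeasurable
  rw [map_right] at h
  exact h.symm

lemma orth_col (g : O d) : Orthonormal ℝ (fun j : Fin (d + 1) =>
    (WithLp.toLp 2 (fun i => (g : Matrix (Fin (d + 1)) (Fin (d + 1)) ℝ) i j) : E d)) := by
  rw [orthonormal_iff_ite]
  intro j k
  have h := (Matrix.mem_orthogonalGroup_iff' _ _).1 g.2
  have h2 := congrFun (congrFun h j) k
  rw [Matrix.mul_apply, Matrix.one_apply] at h2
  rw [PiLp.inner_apply]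
  simp only [RCLike.inner_apply, conj_trivial]
  rw [← h2]
  refine Finset.sum_congr rfl fun i _ => ?_
  rw [Matrix.transpose_apply]
  ring

/-- The columns of an orthogonal matrix. -/
noncomputable def Phi (g : O d) : Fr d :=
  ⟨fun j => WithLp.toLp 2 (fun i => (g : Matrix (Fin (d + 1)) (Fin (d + 1)) ℝ) i j), orth_col g⟩

lemma Phi_apply (g : O d) (j i : Fin (d + 1)) :
    (Phi g).1 j i = (g : Matrix (Fin (d + 1)) (Fin (d + 1)) ℝ) i j := rfl

lemma continuous_Phi : Continuous (Phi : O d → Fr d) := by
  refine Continuous.subtype_mk ?_ _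
  refine continuous_pi fun j => ?_
  refine (PiLp.continuous_toLp 2 _).comp ?_
  refine continuous_pi fun i => ?_
  exact (continuous_apply_apply i j).comp continuous_subtype_val

lemma Phi_mul (g A : O d) : Phi (g * A) = rotF A (Phi g) := by
  apply Subtype.ext
  funext j
  ext i
  show ((g * A : O d) : Matrix (Fin (d + 1)) (Fin (d + 1)) ℝ) i j =
    (∑ k, (A : Matrix (Fin (d + 1)) (Fin (d + 1)) ℝ) k j • (Phi g).1 k) i
  rw [WithLp.ofLp_sum, Finset.sum_apply]
  show ((g : Matrix (Fin (d + 1)) (Fin (d + 1)) ℝ) * (A : Matrix (Fin (d + 1)) (Fin (d + 1)) ℝ)) i j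
    = _
  rw [Matrix.mul_apply]
  refine Finset.sum_congr rfl fun k _ => ?_
  rw [PiLp.smul_apply, smul_eq_mul, Phi_apply]
  ring

lemma continuous_rotF (A : O d) : Continuous (rotF A : Fr d → Fr d) := by
  refine Continuous.subtype_mk ?_ _
  refine continuous_pi fun j => ?_
  refine continuous_finsetSum _ fun i _ => ?_
  have h : Continuous (fun b : Fr d => b.1 i) := (continuous_apply i).comp continuous_subtype_val
  exact h.const_smul ((A : Matrix (Fin (d + 1)) (Fin (d + 1)) ℝ) i j)

lemma continuous_vecF (i : Fin (d + 1)) : Continuous (fun b : Fr d => vecF b i) :=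
  Continuous.subtype_mk ((continuous_apply i).comp continuous_subtype_val) _

/-- The columns of an orthogonal matrix as an orthonormal basis. -/
noncomputable def bas (g : O d) : OrthonormalBasis (Fin (d + 1)) ℝ (E d) :=
  OrthonormalBasis.mk (Phi g).2
    ((Phi g).2.linearIndependent.span_eq_top_of_card_eq_finrank (by simp)).ge

lemma bas_apply (g : O d) (j : Fin (d + 1)) : bas g j = (Phi g).1 j := by
  unfold bas
  rw [OrthonormalBasis.coe_mk]

/-- The orthogonal matrix as a linear isometry equivalence. -/
noncomputable def act (g : O d) : E d ≃ₗᵢ[ℝ] E d := (bas g).repr.symm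

lemma act_apply (g : O d) (x : E d) : act g x = ∑ j, x j • (Phi g).1 j := by
  unfold act
  rw [← OrthonormalBasis.sum_repr_symm]
  refine Finset.sum_congr rfl fun j _ => ?_
  rw [bas_apply]

/-- The action of an isometry on the sphere. -/
noncomputable def actL (L : E d ≃ₗᵢ[ℝ] E d) (x : Sph d) : Sph d :=
  ⟨L (x : E d), by
    rw [mem_sphere_zero_iff_norm, L.norm_map]
    exact mem_sphere_zero_iff_norm.1 x.2⟩

lemma continuous_actL (L : E d ≃ₗᵢ[ℝ] E d) : Continuous (actL L : Sph d → Sph d) :=
  Continuous.subtype_mk (L.continuous.comp continuous_subtype_val) _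

lemma map_actL (L : E d ≃ₗᵢ[ℝ] E d) : (σ d).map (actL L) = σ d := by
  have hc : Continuous (actL L : Sph d → Sph d) := continuous_actL L
  ext s hs
  rw [Measure.map_apply hc.measurable hs, Measure.toSphere_apply' _ (hc.measurable hs),
    Measure.toSphere_apply' _ hs]
  congr 1
  have h : Ioo (0 : ℝ) 1 • ((↑) '' (actL L ⁻¹' s : Set (Sph d)) : Set (E d))
      = L ⁻¹' (Ioo (0 : ℝ) 1 • ((↑) '' s : Set (E d))) := by
    ext z
    constructor
    · rintro ⟨r, hr, _, ⟨x, hx, rfl⟩, rfl⟩
      exact ⟨r, hr, _, ⟨actL L x, hx, rfl⟩, (L.map_smul r (x : E d)).symm⟩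
    · rintro ⟨r, hr, _, ⟨y, hy, rfl⟩, hz⟩
      have hyn : ‖L.symm (y : E d)‖ = 1 := by
        rw [LinearIsometryEquiv.norm_map]
        exact mem_sphere_zero_iff_norm.1 y.2
      refine ⟨r, hr, _, ⟨⟨L.symm (y : E d), mem_sphere_zero_iff_norm.2 hyn⟩, ?_, rfl⟩, ?_⟩
      · have : actL L ⟨L.symm (y : E d), mem_sphere_zero_iff_norm.2 hyn⟩ = y := by
          apply Subtype.ext
          exact L.apply_symm_apply (y : E d)
        rw [mem_preimage, this]
        exact hy
      · show r • L.symm (y : E d) = z
        apply L.injective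
        have h1 : L (r • L.symm (y : E d)) = r • (y : E d) := by
          rw [L.map_smul, L.apply_symm_apply]
        rw [h1]
        exact hz
  rw [h]
  exact L.measurePreserving.measure_preimage_emb L.toHomeomorph.measurableEmbedding _

/-- The action on the sphere. -/
noncomputable def actS (g : O d) (x : Sph d) : Sph d := actL (act g) x

lemma continuous_actS : Continuous (fun p : O d × Sph d => actS p.1 p.2) := by
  refine Continuous.subtype_mk ?_ _
  have h1 : ∀ p : O d × Sph d, act p.1 (p.2 : E d) = ∑ j, (p.2 : E d) j • (Phi p.1).1 j :=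
    fun p => act_apply p.1 (p.2 : E d)
  simp only [h1]
  refine continuous_finsetSum _ fun j _ => ?_
  have h2 : Continuous (fun p : O d × Sph d => (p.2 : E d) j) :=
    (EuclideanSpace.proj (𝕜 := ℝ) j).continuous.comp
      (continuous_subtype_val.comp continuous_snd)
  have h3 : Continuous (fun p : O d × Sph d => (Phi p.1).1 j) :=
    (continuous_apply j).comp (continuous_subtype_val.comp (continuous_Phi.comp continuous_fst))
  exact h2.smul h3

lemma map_actS (g : O d) : (σ d).map (actS g) = σ d := map_actL (act g)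

lemma integral_actS (g : O d) {f : Sph d → ℝ} (hf : Continuous f) :
    ∫ x, f (actS g x) ∂(σ d) = ∫ x, f x ∂(σ d) := by
  have hc : Continuous (actS g : Sph d → Sph d) := continuous_actL (act g)
  have h := integral_map (μ := σ d) (φ := actS g) hc.measurable.aemeasurable (f := f)
    hf.aestronglyMeasurable
  rw [map_actS] at h
  exact h.symm

lemma exists_k (x : Sph d) : ∃ k : O d, vecF (Phi k) 0 = x := by
  classical
  have hv : Orthonormal ℝ (({0} : Set (Fin (d + 1))).domRestrict
      (fun _ : Fin (d + 1) => (x : E d))) := by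
    rw [orthonormal_iff_ite]
    intro i j
    have hij : i = j := by
      apply Subtype.ext
      rw [i.2, j.2]
    rw [if_pos hij]
    show inner ℝ (x : E d) (x : E d) = 1
    rw [real_inner_self_eq_norm_sq, mem_sphere_zero_iff_norm.1 x.2]
    norm_num
  obtain ⟨b, hb⟩ := hv.exists_orthonormalBasis_extension_of_card_eq (by simp)
  have h0 : b 0 = (x : E d) := hb 0 rfl
  have hk : (Matrix.of fun i j : Fin (d + 1) => b j i) ∈ Matrix.orthogonalGroup (Fin (d + 1)) ℝ := by
    rw [Matrix.mem_orthogonalGroup_iff']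
    ext j k
    rw [Matrix.mul_apply, Matrix.one_apply]
    have h := (orthonormal_iff_ite.1 b.orthonormal) j k
    rw [PiLp.inner_apply] at h
    simp only [RCLike.inner_apply, conj_trivial] at h
    rw [← h]
    refine Finset.sum_congr rfl fun i _ => ?_
    rw [Matrix.transpose_apply, Matrix.of_apply, Matrix.of_apply]
    ring
  refine ⟨⟨_, hk⟩, ?_⟩
  apply Subtype.ext
  rw [← h0]
  ext i
  rfl

lemma actS_vecF (g k : O d) : actS g (vecF (Phi k) 0) = vecF (Phi (g * k)) 0 := by
  apply Subtype.ext
  show act g ((Phi k).1 0) = (Phi (g * k)).1 0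
  rw [act_apply, Phi_mul]
  rfl

theorem t_FRAME : Pool.Agent.Y499.HC.T_FRAME := by
  intro d
  have hΦ : Measurable (Phi : O d → Fr d) := continuous_Phi.measurable
  refine ⟨(ν d).map Phi, ⟨?_, ?_, ?_⟩⟩
  · exact Measure.isProbabilityMeasure_map hΦ.aemeasurable
  · intro A f hf
    have hfr : Continuous (fun b : Fr d => f (rotF A b)) := hf.comp (continuous_rotF A)
    rw [integral_map hΦ.aemeasurable hf.aestronglyMeasurable,
      integral_map hΦ.aemeasurable hfr.aestronglyMeasurable]
    have hfP : Continuous (fun g : O d => f (Phi g)) := hf.comp continuous_Phi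
    rw [← integral_right A hfP]
    refine integral_congr_ae (Filter.Eventually.of_forall fun g => ?_)
    show f (rotF A (Phi g)) = f (Phi (g * A))
    rw [Phi_mul]
  · intro f hf
    have hfv : Continuous (fun b : Fr d => f (vecF b 0)) := hf.comp (continuous_vecF 0)
    rw [integral_map hΦ.aemeasurable hfv.aestronglyMeasurable]
    have hin : ∀ x : Sph d, ∫ g, f (actS g x) ∂(ν d) = ∫ g, f (vecF (Phi g) 0) ∂(ν d) := by
      intro x
      obtain ⟨k, rfl⟩ := exists_k x
      have hfP : Continuous (fun g : O d => f (vecF (Phi g) 0)) := hfv.comp continuous_Phi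
      rw [← integral_right k hfP]
      refine integral_congr_ae (Filter.Eventually.of_forall fun g => ?_)
      show f (actS g (vecF (Phi k) 0)) = f (vecF (Phi (g * k)) 0)
      rw [actS_vecF]
    have hswap : ∫ g, ∫ x, f (actS g x) ∂(σ d) ∂(ν d) = ∫ x, ∫ g, f (actS g x) ∂(ν d) ∂(σ d) := by
      apply integral_integral_swap
      exact (hf.comp continuous_actS).integrable_of_hasCompactSupport
        (HasCompactSupport.of_compactSpace _)
    have h1 : ∫ g, ∫ x, f (actS g x) ∂(σ d) ∂(ν d) = ∫ x, f x ∂(σ d) := by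
      have : ∀ g : O d, ∫ x, f (actS g x) ∂(σ d) = ∫ x, f x ∂(σ d) := fun g => integral_actS g hf
      simp only [this]
      rw [integral_const]
      simp
    rw [← h1, hswap]
    simp only [hin]
    rw [integral_const]
    simp [Measure.real]

end Pool.Agent.Y502.HC
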